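import Pool.Agent.Lib.MP_c907c5_lc.SN.GMain
import Pool.Agent.Lib.MP_c907c5_lc.SN.GBase

/-! Let `(K, <)` be a strongly NIP ordered field (with the definition of the frozen statement), `F₀`
a subfield of `K` isomorphic to `ℚ` or to `k(t)` for some field `k`, `F` a finite extension of `F₀`
in the algebraic closure of `K` and `L` a Galois extension of `F` (finite or infinite) in the
algebraic closure of `K`. If every element of `K` that is algebraic over `F₀` lies in `L`, then `L`
consists of all elements of the algebraic closure of `K` that are algebraic over `F₀`. -/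

set_option autoImplicit false
open FirstOrder FirstOrder.Language FirstOrder.Ring
open Pool.Agent.Lib.MP_c907c5_lc.SN

namespace Pool.Agent.Results.MP_c907c5_lc.AlgebraicPart

theorem result (K : Type) [Field K] [LinearOrder K] [IsStrictOrderedRing K] [CompatibleRing K]
    [Language.order.Structure K] [Language.order.OrderedStructure K] (hK : StronglyNIP K)
    (F₀ : Type) [Field F₀] [Algebra F₀ K]
    (hF₀ : Nonempty (F₀ ≃+* ℚ) ∨ ∃ (k : Type) (_ : Field k), Nonempty (F₀ ≃+* RatFunc k))
    (F : Type) [Field F] [Algebra F₀ F] [FiniteDimensional F₀ F] [Algebra F (AlgebraicClosure K)]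
    [IsScalarTower F₀ F (AlgebraicClosure K)]
    (L : IntermediateField F (AlgebraicClosure K)) [Normal F L]
    (hL : ∀ x : K, IsAlgebraic F₀ x → algebraMap K (AlgebraicClosure K) x ∈ L) :
    ∀ y : AlgebraicClosure K, y ∈ L ↔ IsAlgebraic F₀ y := by
  have : CharZero F₀ := RingHom.charZero (algebraMap F₀ K)
  intro y
  refine ⟨fun hy => ?_, gmain K hK F₀ (primes_base F₀ hF₀) F L hL y⟩
  have h1 : IsAlgebraic F (⟨y, hy⟩ : L) := Algebra.IsAlgebraic.isAlgebraic _
  have h2 : IsAlgebraic F y := (isAlgebraic_algebraMap_iff
    (algebraMap L (AlgebraicClosure K)).injective (a := (⟨y, hy⟩ : L))).2 h1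
  exact h2.restrictScalars F₀

end Pool.Agent.Results.MP_c907c5_lc.AlgebraicPart
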