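import Pool.Agent.Lib.MP_c907c5_lc.SN.FinIdx
import Pool.Agent.Lib.MP_c907c5_lc.SN.ArithV

/-! Let `(K, <)` be a strongly NIP ordered field (with the definition of the frozen statement), `M` a
finite extension of `K` and `E` a subfield of `M` that contains all `x` of `M` with `x ^ q` in `E` for
some prime `q` (for example, `E` relatively algebraically closed in `M`). There is a finite set `s` of
primes such that, up to dependence, only finitely many non-trivial valuation rings `O` of `E` have, for
some prime `q` not in `s`, a non-dense set of `q`-th powers: there is an open set `u + g O` of `E`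
without `q`-th powers. Two valuation rings are independent if their product is all of `E`. -/

set_option autoImplicit false
open FirstOrder FirstOrder.Language FirstOrder.Ring
open Pool.Agent.Lib.MP_c907c5_lc.SN

namespace Pool.Agent.Results.MP_c907c5_lc.LocalPart

theorem result (K : Type) [Field K] [LinearOrder K] [IsStrictOrderedRing K] [CompatibleRing K]
    [Language.order.Structure K] [Language.order.OrderedStructure K] (hK : StronglyNIP K)
    (M : Type) [Field M] [Algebra K M] [FiniteDimensional K M] (E : Subfield M)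
    (hE : ∀ (q : ℕ) (x : M), q.Prime → x ^ q ∈ E → x ∈ E) :
    ∃ s : Finset ℕ, ¬ ∃ O : ℕ → ValuationSubring E,
      (∀ i, O i ≠ ⊤) ∧
      (∀ i j, i ≠ j → ∀ x : E, ∃ a ∈ O i, ∃ b ∈ O j, x = a * b) ∧
      ∀ i, ∃ q : ℕ, q.Prime ∧ q ∉ s ∧
        ∃ u g : E, g ≠ 0 ∧ ∀ z : E, ∀ y ∈ O i, z ^ q ≠ u + g * y := by
  classical
  obtain ⟨s, hs⟩ := finite_reps K hK M
  refine ⟨insert 2 s, ?_⟩
  rintro ⟨O, hnt, hne, h⟩
  choose q hq hqs u g hg hbad using h
  have hR : ∀ i, ∃ R : Finset M, ∀ x : M, x ≠ 0 → ∃ r ∈ R, ∃ z : M, x = r * z ^ q i :=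
    fun i => hs (q i) (hq i) fun h => hqs i (Finset.mem_insert_of_mem h)
  choose R hR using hR
  refine arith_val K hK M E q (fun i x => hE (q i) x (hq i))
    (fun i => (hq i).odd_of_ne_two fun h => ?_) R hR O hnt hne u g hg fun i z => ?_
  · exact hqs i (by rw [h]; exact Finset.mem_insert_self _ _)
  · by_contra hlt
    rw [not_le] at hlt
    have h1 : (z ^ q i - u i) / g i ∈ O i := by
      rw [← (O i).valuation_le_one_iff, map_div₀, Valuation.map_sub_swap]
      exact (div_le_one₀ (zero_lt_iff.2 ((Valuation.ne_zero_iff _).2 (hg i)))).2 hlt.le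
    apply hbad i z _ h1
    field_simp [hg i]
    ring

end Pool.Agent.Results.MP_c907c5_lc.LocalPart
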